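import Mathlib
import Pool.Agent.Hx88.NZ.Pair
import Pool.Agent.W518.DN.Density

/-!
# Residue patterns, flips and slopes
-/

set_option autoImplicit false

namespace Pool.Agent.Hx88.NZ

open Polynomial Pool.Agent.W521.Frob Pool.Agent.W484.TB

theorem lift_eq_weil (q : ℕ) {g : ℕ} {h : ℤ[X]} (hd : h.natDegree = g) :
    Pool.Agent.W518.DN.lift (q : ℤ) g h = weil q h := by
  subst hd
  unfold Pool.Agent.W518.DN.lift weil
  refine Finset.sum_congr rfl fun k _ => ?_
  ring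

section pattern

variable {l : ℕ} [hl : Fact l.Prime]

theorem isSquare_of_goodA {q t : ZMod l} (h : t ∈ Pool.Agent.W518.DN.goodA l q) :
    IsSquare (t ^ 2 - 4 * q) ∧ t ^ 2 - 4 * q ≠ 0 := by
  classical
  obtain ⟨u, hu, rfl⟩ := Finset.mem_image.1 h
  obtain ⟨-, hu0, hu2⟩ := Finset.mem_filter.1 hu
  have h1 : (u + q / u) ^ 2 - 4 * q = (u - q / u) * (u - q / u) := by
    field_simp
    ring
  refine ⟨⟨u - q / u, h1⟩, ?_⟩
  rw [h1]
  have h2 : u - q / u ≠ 0 := by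
    intro h3
    apply hu2
    rw [sub_eq_zero, eq_div_iff hu0] at h3
    rw [sq]
    exact h3
  exact mul_ne_zero h2 h2

theorem not_isSquare_of_goodB {q t : ZMod l} (hl2 : l ≠ 2) (hq : q ≠ 0)
    (h : t ∈ Pool.Agent.W518.DN.goodB l q) : ¬ IsSquare (t ^ 2 - 4 * q) := by
  classical
  rintro ⟨w, hw⟩
  have h2 : (2 : ZMod l) ≠ 0 := by
    intro h0
    have h1 : ((2 : ℕ) : ZMod l) = 0 := by exact_mod_cast h0
    rw [ZMod.natCast_eq_zero_iff] at h1
    exact hl2 ((Nat.prime_dvd_prime_iff_eq hl.out Nat.prime_two).1 h1)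
  set u : ZMod l := (t + w) / 2 with hu
  have h3 : u ^ 2 - t * u + q = 0 := by
    have h4 : (2 : ZMod l) * u = t + w := by rw [hu]; field_simp
    have h5 : (2 : ZMod l) * 2 * (u ^ 2 - t * u + q) = 0 := by
      linear_combination (2 * u + t + w - 2 * t) * h4 - hw
    rcases mul_eq_zero.1 h5 with h6 | h6
    · exact absurd h6 (mul_ne_zero h2 h2)
    · exact h6
  have hu0 : u ≠ 0 := by
    intro h0
    rw [h0] at h3
    apply hq
    linear_combination h3
  rw [Pool.Agent.W518.DN.goodB, Finset.mem_sdiff] at h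
  apply h.2
  refine Finset.mem_image.2 ⟨u, by simp [hu0], ?_⟩
  field_simp
  linear_combination h3

theorem flipPattern {κ : Type} {q : ℕ} {g : κ → ℕ} {h : κ → ℤ[X]} (hl2 : l ≠ 2)
    (hql : (q : ZMod l) ≠ 0) (y : ∀ i, Fin (g i) → ZMod l) (hy : ∀ i, Function.Injective (y i))
    (hhy : ∀ i, (h i).map (Int.castRingHom (ZMod l)) = ∏ t, (X - C (y i t)))
    (i0 : κ) (t0 : Fin (g i0)) (hB : y i0 t0 ∈ Pool.Agent.W518.DN.goodB l q)
    (hA : ∀ i t, (⟨i, t⟩ : Σ i, Fin (g i)) ≠ ⟨i0, t0⟩ →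
      y i t ∈ Pool.Agent.W518.DN.goodA l q) : FlipPattern q h i0 l := by
  classical
  refine ⟨fun i => Finset.univ.image (y i), y i0 t0, Finset.mem_image_of_mem _ (Finset.mem_univ _),
    not_isSquare_of_goodB hl2 hql hB, ?_, ?_⟩
  · intro i
    rw [hhy, Finset.prod_image fun a _ b _ hab => hy i hab]
  · intro i t ht hne
    obtain ⟨t', -, rfl⟩ := Finset.mem_image.1 ht
    refine isSquare_of_goodA (hA i t' ?_)
    intro h1
    apply hne
    obtain ⟨rfl, h2⟩ := Sigma.mk.inj_iff.1 h1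
    exact ⟨rfl, by rw [eq_of_heq h2]⟩

end pattern

/-- A conjugate of a supersingular number is supersingular. -/
theorem transfer {h : ℤ[X]} (hirr : Irreducible (h.map (Int.castRingHom ℚ))) {q : ℕ}
    {Ω : Type} [Field Ω] [IsAlgClosed Ω] [CharZero Ω] (z : ℂ) (hz : z ≠ 0)
    (hzh : aeval (z + q / z) h = 0) (x : Ω) (hx : x ≠ 0) (hxh : aeval (x + q / x) h = 0) (t : ℕ)
    (hq : q ≠ 0) (h1 : (z ^ 2) ^ t = (q : ℂ) ^ t) : (x ^ 2) ^ t = (q : Ω) ^ t := by
  have hfact : Fact (Irreducible (h.map (Int.castRingHom ℚ))) := ⟨hirr⟩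
  let k := AdjoinRoot (h.map (Int.castRingHom ℚ))
  have hev : ∀ {F : Type} [Field F] [CharZero F] (y : F), aeval y h = 0 →
      (h.map (Int.castRingHom ℚ)).eval₂ (algebraMap ℚ F) y = 0 := by
    intro F _ _ y hy
    rw [eval₂_map, RingHom.ext_int ((algebraMap ℚ F).comp (Int.castRingHom ℚ)) (algebraMap ℤ F)]
    exact hy
  let f₁ : k →+* ℂ := AdjoinRoot.lift (algebraMap ℚ ℂ) (z + q / z) (hev _ hzh)
  let f₂ : k →+* Ω := AdjoinRoot.lift (algebraMap ℚ Ω) (x + q / x) (hev _ hxh)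
  let _ : Algebra k ℂ := f₁.toAlgebra
  let _ : Algebra k Ω := f₂.toAlgebra
  have hr₁ : algebraMap k ℂ (AdjoinRoot.root _) = z + q / z := AdjoinRoot.lift_root (hev _ hzh)
  have hr₂ : algebraMap k Ω (AdjoinRoot.root _) = x + q / x := AdjoinRoot.lift_root (hev _ hxh)
  have hint : IsIntegral k z := by
    refine ⟨X ^ 2 - C (AdjoinRoot.root _) * X + C (q : k), ?_, ?_⟩
    · monicity!
    · rw [eval₂_add, eval₂_sub, eval₂_mul, eval₂_pow, eval₂_X, eval₂_C, eval₂_C, hr₁, map_natCast]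
      field_simp
      ring
  have halg : Algebra.IsAlgebraic k (IntermediateField.adjoin k {z}) :=
    IntermediateField.isAlgebraic_adjoin_simple hint
  let φ : (IntermediateField.adjoin k {z}) →ₐ[k] Ω := IsAlgClosed.lift
  let w : IntermediateField.adjoin k {z} := IntermediateField.AdjoinSimple.gen k z
  have hw : (w : ℂ) = z := IntermediateField.AdjoinSimple.coe_gen k z
  have hw1 : w ^ 2 + (q : IntermediateField.adjoin k {z}) =
      algebraMap k _ (AdjoinRoot.root _) * w := by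
    apply Subtype.ext
    change (w : ℂ) ^ 2 + (q : ℂ) = algebraMap k ℂ (AdjoinRoot.root _) * (w : ℂ)
    rw [hw, hr₁]
    field_simp
  have hw2 : (w ^ 2) ^ t = (q : IntermediateField.adjoin k {z}) ^ t := by
    apply Subtype.ext
    change ((w : ℂ) ^ 2) ^ t = (q : ℂ) ^ t
    rw [hw, h1]
  have h3 := congrArg φ hw1
  rw [map_add, map_pow, map_natCast, map_mul, φ.commutes, hr₂] at h3
  have h4 := congrArg φ hw2
  rw [map_pow, map_pow, map_pow, map_natCast] at h4
  have hqΩ : (q : Ω) ≠ 0 := by exact_mod_cast hq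
  have h5 : (φ w - x) * (φ w - q / x) = 0 := by
    have h6 : x * (q / x) = q := by field_simp
    linear_combination h3 + h6
  rcases mul_eq_zero.1 h5 with h6 | h6
  · rw [← sub_eq_zero.1 h6]
    exact h4
  · rw [sub_eq_zero.1 h6, div_pow, div_pow,
      div_eq_iff (pow_ne_zero _ (pow_ne_zero _ hx))] at h4
    have h7 : (q : Ω) ^ t * (q : Ω) ^ t = (q : Ω) ^ t * (x ^ 2) ^ t := by
      rw [← h4]
      ring
    exact (mul_left_cancel₀ (pow_ne_zero _ hqΩ) h7).symm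

open Pool.Agent.W518.DN in
/-- No root is supersingular, if a slope is different from `1 / 2`. -/
theorem not_supersingular (p : ℕ) [hp : Fact p.Prime] {a : ℕ} (ha : 0 < a) {g : ℕ}
    {s : Fin g → ℚ} (j : Fin g) (hj : s j < 1 / 2) {h : ℤ[X]} (hm : h.Monic)
    (hirr : Irreducible (h.map (Int.castRingHom ℚ)))
    (hsl : HasSlopes p a s (weil (p ^ a) h)) (z : ℂ) (hz : aeval z (weil (p ^ a) h) = 0) :
    ¬ ∃ t : ℕ, 0 < t ∧ (z ^ 2) ^ t = ((p ^ a : ℕ) : ℂ) ^ t := by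
  rintro ⟨t, ht, h1⟩
  have hp2 := hp.out.two_le
  have hq : p ^ a ≠ 0 := pow_ne_zero _ hp.out.ne_zero
  have hPm : (weil (p ^ a) h).Monic := weil_monic _ hm
  obtain ⟨x, hx, hxs⟩ : ∃ x ∈ ((weil (p ^ a) h).map (Int.castRingHom
      (AlgebraicClosure ℚ_[p]))).roots, spectralNorm ℚ_[p] (AlgebraicClosure ℚ_[p]) x =
        (p : ℝ) ^ (-((a * s j : ℚ) : ℝ)) := by
    have h2 : (p : ℝ) ^ (-((a * s j : ℚ) : ℝ)) ∈ ((weil (p ^ a) h).map (Int.castRingHom
        (AlgebraicClosure ℚ_[p]))).roots.map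
        (fun x => spectralNorm ℚ_[p] (AlgebraicClosure ℚ_[p]) x) := by
      rw [hsl]
      exact Multiset.mem_add.2 (Or.inl (Multiset.mem_map.2 ⟨j, Finset.mem_univ_val j, rfl⟩))
    obtain ⟨x, hx, hx'⟩ := Multiset.mem_map.1 h2
    exact ⟨x, hx, hx'⟩
  have hroot : ∀ {F : Type} [Field F] [CharZero F] (y : F), aeval y (weil (p ^ a) h) = 0 →
      y ≠ 0 ∧ aeval (y + ((p ^ a : ℕ) : F) / y) h = 0 := by
    intro F _ _ y hy
    have h2 := root_symm (L := F) (q := p ^ a) (g := h.natDegree) (h := h) hm rfl hq (π := y) (by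
      rw [lift_eq_weil _ rfl, IsRoot.def, eval_map]
      exact hy)
    refine ⟨h2.1, ?_⟩
    have h3 := h2.2.2
    rw [IsRoot.def, eval_map] at h3
    exact h3
  obtain ⟨hz0, hzh⟩ := hroot z hz
  have hx' : aeval x (weil (p ^ a) h) = 0 := by
    have h2 := (mem_roots'.1 hx).2
    rw [IsRoot.def, eval_map] at h2
    exact h2
  obtain ⟨hx0, hxh⟩ := hroot x hx'
  have h2 := transfer hirr z hz0 hzh x hx0 hxh t hq h1
  have h3 := congrArg (nv p) h2
  rw [map_pow, map_pow, map_pow] at h3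
  have h4 : nv p x = pw p (a * s j) := by
    rw [nv_apply, hxs]
    rfl
  have h5 : nv p (((p ^ a : ℕ) : AlgebraicClosure ℚ_[p])) = pw p a := by
    push_cast
    exact nv_ppow p a
  rw [h4, h5, ← pw_nsmul hp2, ← pw_nsmul hp2, ← pw_nsmul hp2] at h3
  have h6 := pw_inj hp2 h3
  have h7 : (0 : ℚ) < t := by exact_mod_cast ht
  have h8 : (0 : ℚ) < a := by exact_mod_cast ha
  have h9 : (t : ℚ) * (a * (1 - 2 * s j)) = 0 := by
    push_cast at h6
    linear_combination -h6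
  have h10 : (0 : ℚ) < (t : ℚ) * (a * (1 - 2 * s j)) := by
    refine mul_pos h7 (mul_pos h8 ?_)
    linarith
  linarith

end Pool.Agent.Hx88.NZ
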