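import Mathlib
import Pool.Agent.W518.TC.Defs

/-!
# Products of abelian varieties over finite fields with abelian varieties of small dimension
-/

set_option autoImplicit false

namespace Pool.Agent.Hx88.NZ

open Polynomial Pool.Agent.W518.TC

/-- `T` is the Frobenius polynomial of an abelian variety `B` over the field with `p ^ a` elements
such that all its simple factors, with the possible exception of those whose Frobenius eigenvalues
have a positive power in the number field `E` (for instance the supersingular ones), occur in an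
abelian variety, with Frobenius polynomial `T₁`, of dimension at most `r`. -/
def IsSmall (E : IntermediateField ℚ ℂ) (p : ℕ) [Fact p.Prime] (a r : ℕ) (T : ℤ[X]) : Prop :=
  IsFrobPoly p a T ∧ ∃ T₁ : ℤ[X], IsFrobPoly p a T₁ ∧ T₁.natDegree ≤ 2 * r ∧
    ∀ z : ℂ, aeval z T = 0 → aeval z T₁ = 0 ∨ ∃ N : ℕ, 0 < N ∧ z ^ N ∈ E

/-- Let `A_i` be abelian varieties over the field `k` with `p ^ a` elements with Frobenius
polynomials `P i`.  For all exponents `n i`, all finite extensions `k'` of `k` (of degree `s`) and
all abelian varieties `B` over `k'` which are small: every Tate class, of any degree and over any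
finite extension of `k'`, on `(∏ A_i ^ (n i)) × B` is in the algebra generated by the Tate classes of
codimension one, that is, the divisor classes, on `∏ A_i ^ (n i)` and by the Tate classes on `B`. -/
def TateTimes {κ : Type} [Fintype κ] (E : IntermediateField ℚ ℂ) (p : ℕ) [Fact p.Prime] (a r : ℕ)
    (P : κ → ℤ[X]) : Prop :=
  ∀ s : ℕ, 0 < s → ∀ (n : κ → ℕ) (T : ℤ[X]), IsSmall E p (a * s) r T →
    ∀ (V : Type) [AddCommGroup V] [Module ℂ V] (F : Module.End ℂ V), IsH1 (∏ i, P i ^ n i) V F →
    ∀ (W : Type) [AddCommGroup W] [Module ℂ W] (Φ : Module.End ℂ W), IsH1 T W Φ →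
    ∀ (m : ℕ) (x : ExteriorAlgebra ℂ (V × W)),
      IsTateClass ((F ^ s).prodMap Φ) (p ^ (a * s)) m x →
      x ∈ Algebra.adjoin ℂ
        ({y | ∃ u, IsTateClass (F ^ s) (p ^ (a * s)) 1 u ∧
            y = ExteriorAlgebra.map (LinearMap.inl ℂ V W) u} ∪
          {y | ∃ (j : ℕ) (u : ExteriorAlgebra ℂ W), IsTateClass Φ (p ^ (a * s)) j u ∧
            y = ExteriorAlgebra.map (LinearMap.inr ℂ V W) u})

end Pool.Agent.Hx88.NZ
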