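import Mathlib
import Pool.Agent.Hx88.NZ.Defs
import Pool.Agent.Hx88.NZ.Pair

/-!
# The rank of the group generated by the Frobenius eigenvalues of a small abelian variety
-/

set_option autoImplicit false

namespace Pool.Agent.Hx88.NZ

open Polynomial Pool.Agent.W518.TC Pool.Agent.W484.TB Pool.Agent.W484.AA

/-- Up to powers `z` is in the group generated by the nonzero elements of `E` and the `u j`. -/
def InSpan (E : IntermediateField ℚ ℂ) {r : ℕ} (u : Fin r → ℂ) (z : ℂ) : Prop :=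
  ∃ (N : ℕ) (y : ℂ) (m : Fin r → ℤ), 0 < N ∧ y ∈ E ∧ y ≠ 0 ∧ z ^ N = y * ∏ j, u j ^ m j

variable {E : IntermediateField ℚ ℂ} {r : ℕ} {u : Fin r → ℂ}

theorem InSpan.one : InSpan E u 1 := ⟨1, 1, fun _ => 0, one_pos, one_mem E, one_ne_zero, by simp⟩

theorem InSpan.mul (hu : ∀ j, u j ≠ 0) {z w : ℂ} (hz : InSpan E u z) (hw : InSpan E u w) :
    InSpan E u (z * w) := by
  obtain ⟨N, y, m, hN, hy, hy0, h1⟩ := hz
  obtain ⟨M, y', m', hM, hy', hy0', h2⟩ := hw
  refine ⟨N * M, y ^ M * y' ^ N, fun j => m j * M + m' j * N, Nat.mul_pos hN hM,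
    mul_mem (pow_mem hy _) (pow_mem hy' _), mul_ne_zero (pow_ne_zero _ hy0) (pow_ne_zero _ hy0'),
    ?_⟩
  have h3 : ∏ j, u j ^ (m j * (M : ℤ) + m' j * (N : ℤ)) =
      (∏ j, u j ^ m j) ^ M * (∏ j, u j ^ m' j) ^ N := by
    rw [← Finset.prod_pow, ← Finset.prod_pow, ← Finset.prod_mul_distrib]
    refine Finset.prod_congr rfl fun j _ => ?_
    rw [zpow_add₀ (hu j), zpow_mul, zpow_mul, zpow_natCast, zpow_natCast]
  rw [h3]
  calc (z * w) ^ (N * M) = (z ^ N) ^ M * (w ^ M) ^ N := by ring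
    _ = _ := by rw [h1, h2]; ring

theorem InSpan.list_prod (hu : ∀ j, u j ≠ 0) (l : List ℂ) (hl : ∀ z ∈ l, InSpan E u z) :
    InSpan E u l.prod := by
  induction l with
  | nil => simpa using InSpan.one
  | cons z l ih =>
    rw [List.prod_cons]
    exact (hl z List.mem_cons_self).mul hu (ih fun w hw => hl w (List.mem_cons_of_mem _ hw))

theorem aeval_conj (T : ℤ[X]) (z : ℂ) (hz : aeval z T = 0) : aeval (starRingEnd ℂ z) T = 0 := by
  have h := Polynomial.hom_eval₂ T (algebraMap ℤ ℂ) (starRingEnd ℂ) z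
  rw [RingHom.ext_int ((starRingEnd ℂ).comp (algebraMap ℤ ℂ)) (algebraMap ℤ ℂ)] at h
  have h2 : eval₂ (algebraMap ℤ ℂ) z T = 0 := hz
  rw [h2, map_zero] at h
  exact h.symm

/-- The `r` numbers. -/
theorem exists_u (E : IntermediateField ℚ ℂ) (p : ℕ) [hp : Fact p.Prime] (a r : ℕ) (T : ℤ[X])
    (hT : IsFrobPoly p a T) (hr : T.natDegree ≤ 2 * r) :
    ∃ u : Fin r → ℂ, (∀ j, u j ≠ 0) ∧ ∀ z : ℂ, aeval z T = 0 → InSpan E u z := by
  classical
  have hp0 : (p : ℂ) ≠ 0 := by exact_mod_cast hp.out.ne_zero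
  set R : Finset ℂ := (T.map (Int.castRingHom ℂ)).roots.toFinset with hR
  have hmem : ∀ z : ℂ, z ∈ R ↔ aeval z T = 0 := by
    intro z
    rw [hR, Multiset.mem_toFinset, mem_roots (hT.monic.map _).ne_zero, IsRoot.def, eval_map]
    exact Iff.rfl
  have hnorm : ∀ z : ℂ, aeval z T = 0 → z * starRingEnd ℂ z = (p : ℂ) ^ a := by
    intro z hz
    have h1 : (T.map (Int.castRingHom ℂ)).IsRoot z := by
      rw [IsRoot.def, eval_map]
      exact hz
    have h2 := hT.weil z h1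
    rw [Complex.mul_conj, Complex.normSq_eq_norm_sq, h2]
    push_cast
    rfl
  have hcard : R.card ≤ 2 * r := by
    refine (Multiset.toFinset_card_le _).trans ((card_roots' _).trans ?_)
    rwa [hT.monic.natDegree_map]
  set Rp : Finset ℂ := R.filter fun z => 0 < z.im with hRp
  set Rm : Finset ℂ := R.filter fun z => z.im < 0 with hRm
  have hpm : Rp.card ≤ Rm.card := by
    refine Finset.card_le_card_of_injOn (starRingEnd ℂ) ?_ (starRingEnd ℂ).injective.injOn
    intro z hz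
    rw [Finset.mem_coe, hRp, Finset.mem_filter, hmem] at hz
    rw [Finset.mem_coe, hRm, Finset.mem_filter, hmem, Complex.conj_im]
    exact ⟨aeval_conj T z hz.1, by linarith [hz.2]⟩
  have hsum : Rp.card + Rm.card ≤ R.card := by
    rw [← Finset.card_union_of_disjoint]
    · exact Finset.card_le_card (Finset.union_subset (Finset.filter_subset _ _)
        (Finset.filter_subset _ _))
    · rw [Finset.disjoint_left]
      intro z hz hz'
      rw [hRp, Finset.mem_filter] at hz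
      rw [hRm, Finset.mem_filter] at hz'
      linarith [hz.2, hz'.2]
  have hrp : Rp.card ≤ r := by omega
  have h0 : ∀ z ∈ R, z ≠ 0 := by
    intro z hz h0
    have h1 := hnorm z ((hmem z).1 hz)
    rw [h0, zero_mul] at h1
    exact pow_ne_zero a hp0 h1.symm
  let u : Fin r → ℂ := fun j => if h : (j : ℕ) < Rp.card then (Rp.equivFin.symm ⟨j, h⟩ : ℂ) else 1
  have hu : ∀ j, u j ≠ 0 := by
    intro j
    by_cases h : (j : ℕ) < Rp.card
    · have h1 : u j = (Rp.equivFin.symm ⟨j, h⟩ : ℂ) := dif_pos h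
      rw [h1]
      exact h0 _ (Finset.mem_filter.1 (Rp.equivFin.symm ⟨j, h⟩).2).1
    · have h1 : u j = 1 := dif_neg h
      rw [h1]
      exact one_ne_zero
  have hex : ∀ z ∈ Rp, ∃ j, u j = z := by
    intro z hz
    have h1 : ((Rp.equivFin ⟨z, hz⟩ : Fin _) : ℕ) < Rp.card := (Rp.equivFin ⟨z, hz⟩).2
    refine ⟨⟨Rp.equivFin ⟨z, hz⟩, h1.trans_le hrp⟩, ?_⟩
    have h2 : u ⟨Rp.equivFin ⟨z, hz⟩, h1.trans_le hrp⟩ =
        (Rp.equivFin.symm ⟨(Rp.equivFin ⟨z, hz⟩ : ℕ), h1⟩ : ℂ) := dif_pos h1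
    rw [h2, Fin.eta, Equiv.symm_apply_apply]
  have hbase : ∀ j, InSpan E u (u j) := by
    intro j
    refine ⟨1, 1, Pi.single j 1, one_pos, one_mem E, one_ne_zero, ?_⟩
    rw [pow_one, one_mul, Finset.prod_eq_single j]
    · simp
    · intro k _ hk
      rw [Pi.single_eq_of_ne hk, zpow_zero]
    · intro h
      exact absurd (Finset.mem_univ j) h
  have hinv : ∀ j, InSpan E u ((p : ℂ) ^ a / u j) := by
    intro j
    refine ⟨1, (p : ℂ) ^ a, Pi.single j (-1), one_pos, pow_mem (natCast_mem E p) a,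
      pow_ne_zero _ hp0, ?_⟩
    rw [pow_one, Finset.prod_eq_single j]
    · simp [div_eq_mul_inv]
    · intro k _ hk
      rw [Pi.single_eq_of_ne hk, zpow_zero]
    · intro h
      exact absurd (Finset.mem_univ j) h
  refine ⟨u, hu, fun z hz => ?_⟩
  rcases lt_trichotomy z.im 0 with him | him | him
  · have h1 : starRingEnd ℂ z ∈ Rp := by
      rw [hRp, Finset.mem_filter, hmem, Complex.conj_im]
      exact ⟨aeval_conj T z hz, by linarith⟩
    obtain ⟨j, hj⟩ := hex _ h1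
    have h2 : z = (p : ℂ) ^ a / u j := by
      rw [eq_div_iff (hu j), hj]
      exact hnorm z hz
    rw [h2]
    exact hinv j
  · refine ⟨2, (p : ℂ) ^ a, fun _ => 0, two_pos, pow_mem (natCast_mem E p) a,
      pow_ne_zero _ hp0, ?_⟩
    have h1 : starRingEnd ℂ z = z := Complex.conj_eq_iff_im.2 him
    have h2 := hnorm z hz
    rw [h1] at h2
    simp only [zpow_zero, Finset.prod_const_one, mul_one]
    rw [sq]
    exact h2
  · obtain ⟨j, hj⟩ := hex z (by
      rw [hRp, Finset.mem_filter, hmem]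
      exact ⟨hz, him⟩)
    rw [← hj]
    exact hbase j

theorem small_inSpan {p : ℕ} [hp : Fact p.Prime] {a : ℕ} {T : ℤ[X]} (hT : IsSmall E p a r T) :
    ∃ u : Fin r → ℂ, (∀ j, u j ≠ 0) ∧ ∀ z : ℂ, aeval z T = 0 → InSpan E u z := by
  obtain ⟨hT0, T₁, hT₁, hd, h1⟩ := hT
  obtain ⟨u, hu, h2⟩ := exists_u E p a r T₁ hT₁ hd
  refine ⟨u, hu, fun z hz => ?_⟩
  rcases h1 z hz with h3 | ⟨N, hN, h3⟩
  · exact h2 z h3
  · refine ⟨N, z ^ N, fun _ => 0, hN, h3, pow_ne_zero _ ?_, by simp⟩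
    rintro rfl
    have h4 : (T.map (Int.castRingHom ℂ)).IsRoot 0 := by
      rw [IsRoot.def, eval_map]
      exact hz
    have h5 := hT0.weil 0 h4
    rw [norm_zero, zero_pow two_ne_zero] at h5
    have h6 : (p : ℝ) ≠ 0 := by exact_mod_cast hp.out.ne_zero
    exact pow_ne_zero a h6 h5.symm

/-- The conjugates of a product of roots are products of roots. -/
theorem exists_conj_list {T : ℤ[X]} (hT : T.Monic) (l : List ℂ) (hl : ∀ z ∈ l, aeval z T = 0) :
    ∃ χ : ℚ[X], χ ≠ 0 ∧ aeval l.prod χ = 0 ∧ ∀ ρ : ℂ, aeval ρ χ = 0 →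
      ∃ l' : List ℂ, (∀ z ∈ l', aeval z T = 0) ∧ l'.prod = ρ := by
  classical
  let R : Finset ℂ := (T.map (algebraMap ℤ ℂ)).roots.toFinset
  have hmem : ∀ z : ℂ, z ∈ R ↔ aeval z T = 0 := by
    intro z
    rw [Multiset.mem_toFinset, mem_roots (hT.map _).ne_zero, IsRoot.def, eval_map]
    exact Iff.rfl
  obtain ⟨L, hL1, hL2, j, hj⟩ := exists_galois_of_rat (fun y : R => (y : ℂ)) (by
    rintro ⟨y, hy⟩
    have h4 : IsIntegral ℤ y := ⟨T, hT, (hmem y).1 hy⟩
    exact h4.tower_top)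
  have hdown : ∀ x : L, aeval (j x) T = 0 → aeval x T = 0 := by
    intro x hx
    apply j.injective
    have h2 := Polynomial.hom_eval₂ T (algebraMap ℤ L) j x
    rw [RingHom.ext_int (j.comp (algebraMap ℤ L)) (algebraMap ℤ ℂ)] at h2
    rw [map_zero]
    exact h2.trans hx
  have hup : ∀ x : L, aeval x T = 0 → aeval (j x) T = 0 := by
    intro x hx
    have h2 := Polynomial.hom_eval₂ T (algebraMap ℤ L) j x
    rw [RingHom.ext_int (j.comp (algebraMap ℤ L)) (algebraMap ℤ ℂ)] at h2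
    have h3 : eval₂ (algebraMap ℤ L) x T = 0 := hx
    rw [h3, map_zero] at h2
    exact h2.symm
  obtain ⟨l₀, hl₀⟩ : ∃ l₀ : List L, l₀.map j = l := by
    clear_value R
    induction l with
    | nil => exact ⟨[], rfl⟩
    | cons z l ih =>
      obtain ⟨l₀, h1⟩ := ih fun w hw => hl w (List.mem_cons_of_mem _ hw)
      obtain ⟨y, hy⟩ := hj ⟨z, (hmem z).2 (hl z List.mem_cons_self)⟩
      exact ⟨y :: l₀, by rw [List.map_cons, h1, hy]⟩
  have hprod : j l₀.prod = l.prod := by rw [← hl₀, map_list_prod]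
  have hint : IsIntegral ℚ l₀.prod := Algebra.IsIntegral.isIntegral _
  have hjq : ∀ (f : ℚ[X]) (x : L), j (aeval x f) = aeval (j x) f := by
    intro f x
    have h2 := Polynomial.hom_eval₂ f (algebraMap ℚ L) j x
    rw [RingHom.ext_rat (j.comp (algebraMap ℚ L)) (algebraMap ℚ ℂ)] at h2
    exact h2
  refine ⟨minpoly ℚ l₀.prod, minpoly.ne_zero hint, ?_, ?_⟩
  · rw [← hprod, ← hjq, minpoly.aeval, map_zero]
  · intro ρ hρ
    have hsplit : ((minpoly ℚ l₀.prod).map (algebraMap ℚ L)).Splits := Normal.splits' _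
    have h1 : (((minpoly ℚ l₀.prod).map (algebraMap ℚ L)).map j).IsRoot ρ := by
      rw [Polynomial.map_map, RingHom.ext_rat (j.comp (algebraMap ℚ L)) (algebraMap ℚ ℂ),
        IsRoot.def, eval_map]
      exact hρ
    obtain ⟨x, rfl⟩ := hsplit.mem_range_of_isRoot
      ((minpoly.monic hint).map (algebraMap ℚ L)).ne_zero h1
    have hx : aeval x (minpoly ℚ l₀.prod) = 0 := by
      apply j.injective
      rw [hjq, hρ, map_zero]
    obtain ⟨τ, hτ⟩ := minpoly.exists_algEquiv_of_root' (K := ℚ) (x := x) (y := l₀.prod)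
      (Algebra.IsAlgebraic.isAlgebraic _) hx
    refine ⟨l₀.map fun y => j (τ y), ?_, ?_⟩
    · intro z hz
      obtain ⟨y, hy, rfl⟩ := List.mem_map.1 hz
      apply hup
      have h2 := hdown y (hl _ (by rw [← hl₀]; exact List.mem_map_of_mem hy))
      exact Pool.Agent.W521.Criterion.aeval_alg L T τ y h2
    · rw [← hτ, map_list_prod, map_list_prod, List.map_map]
      rfl

end Pool.Agent.Hx88.NZ
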