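import Mathlib
import Pool.Agent.Hx88.NZ.Dens
import Pool.Agent.Hx88.NZ.Small
import Pool.Agent.W518.TC.Ext

/-!
# Tate classes on products with small abelian varieties
-/

set_option autoImplicit false

namespace Pool.Agent.Hx88.NZ

open Polynomial Module ExteriorAlgebra Pool.Agent.W518.TC Pool.Agent.W484.TB Pool.Agent.W484.AA
  Pool.Agent.W484.AS Pool.Agent.W484.BB Pool.Agent.W521.Frob

/-- A monomial with factors in `V × 0` and `0 × W` is a product of two monomials. -/
theorem mono_sort {V W X : Type} [AddCommGroup V] [Module ℂ V] [AddCommGroup W] [Module ℂ W]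
    (L : List ((V × X) ⊕ (W × ℂ))) :
    ∃ (A : List (V × X)) (B : List (W × ℂ)) (ε : ℂ), L.length = A.length + B.length ∧
      (∀ e ∈ A, Sum.inl e ∈ L) ∧ (∀ e ∈ B, Sum.inr e ∈ L) ∧
      (∀ val : X → ℂ, (L.map (Sum.elim (fun e => val e.2) (fun e => e.2))).prod =
        (A.map (fun e => val e.2)).prod * (B.map (fun e => e.2)).prod) ∧
      mono (Ω := ℂ) (L.map (Sum.elim (fun e => ((e.1, 0) : V × W)) (fun e => (0, e.1)))) =
        ε • (ExteriorAlgebra.map (LinearMap.inl ℂ V W) (A.map (fun e => ι ℂ e.1)).prod *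
          ExteriorAlgebra.map (LinearMap.inr ℂ V W) (mono (Ω := ℂ) (B.map (fun e => e.1)))) := by
  induction L with
  | nil => exact ⟨[], [], 1, rfl, by simp, by simp, by simp, by simp [mono]⟩
  | cons e L ih =>
    obtain ⟨A, B, ε, h1, h2, h3, h4, h5⟩ := ih
    rcases e with e | e
    · refine ⟨e :: A, B, ε, by simp only [List.length_cons]; omega, ?_, ?_, ?_, ?_⟩
      · intro e' he'
        rcases List.mem_cons.1 he' with rfl | he'
        · exact List.mem_cons_self
        · exact List.mem_cons_of_mem _ (h2 e' he')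
      · intro e' he'
        exact List.mem_cons_of_mem _ (h3 e' he')
      · intro val
        rw [List.map_cons, List.prod_cons, h4 val, List.map_cons, List.prod_cons, mul_assoc]
        rfl
      · have h6 : mono (Ω := ℂ) ((Sum.inl e :: L).map
            (Sum.elim (fun e => ((e.1, 0) : V × W)) (fun e => (0, e.1)))) =
            ι ℂ ((e.1, 0) : V × W) * mono (Ω := ℂ) (L.map
              (Sum.elim (fun e => ((e.1, 0) : V × W)) (fun e => (0, e.1)))) := by
          simp [mono]
        rw [h6, h5, List.map_cons, List.prod_cons, map_mul, ExteriorAlgebra.map_apply_ι,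
          mul_smul_comm, LinearMap.inl_apply, mul_assoc]
    · -- move the factor to the right
      obtain ⟨ε', h7⟩ := mono_perm (Ω := ℂ) (H := V × W)
        (l := (0, e.1) :: (A.map fun e => ((e.1, 0) : V × W)) ++ B.map fun e => ((0, e.1) : V × W))
        (l' := (A.map fun e => ((e.1, 0) : V × W)) ++ (0, e.1) ::
          B.map fun e => ((0, e.1) : V × W)) (by
          rw [List.cons_append]
          exact (List.perm_middle).symm)
      have hA : ∀ A : List (V × X), mono (Ω := ℂ) (A.map fun e => ((e.1, 0) : V × W)) =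
          ExteriorAlgebra.map (LinearMap.inl ℂ V W) (A.map (fun e => ι ℂ e.1)).prod := by
        intro A
        rw [mono, map_list_prod, List.map_map, List.map_map]
        congr 1
        refine List.map_congr_left fun e _ => ?_
        simp
      have hB : ∀ B : List (W × ℂ), mono (Ω := ℂ) (B.map fun e => ((0, e.1) : V × W)) =
          ExteriorAlgebra.map (LinearMap.inr ℂ V W) (mono (Ω := ℂ) (B.map (fun e => e.1))) := by
        intro B
        rw [mono, mono, map_list_prod, List.map_map, List.map_map, List.map_map]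
        congr 1
        refine List.map_congr_left fun e _ => ?_
        simp
      refine ⟨A, e :: B, ε * ε', by simp only [List.length_cons]; omega, ?_, ?_, ?_, ?_⟩
      · intro e' he'
        exact List.mem_cons_of_mem _ (h2 e' he')
      · intro e' he'
        rcases List.mem_cons.1 he' with rfl | he'
        · exact List.mem_cons_self
        · exact List.mem_cons_of_mem _ (h3 e' he')
      · intro val
        rw [List.map_cons, List.prod_cons, h4 val, List.map_cons, List.prod_cons]
        change e.2 * _ = _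
        ring
      · have h6 : mono (Ω := ℂ) ((Sum.inr e :: L).map
            (Sum.elim (fun e => ((e.1, 0) : V × W)) (fun e => (0, e.1)))) =
            ι ℂ ((0, e.1) : V × W) * mono (Ω := ℂ) (L.map
              (Sum.elim (fun e => ((e.1, 0) : V × W)) (fun e => (0, e.1)))) := by
          simp [mono]
        have h8 : ι ℂ ((0, e.1) : V × W) *
            (ExteriorAlgebra.map (LinearMap.inl ℂ V W) (A.map (fun e => ι ℂ e.1)).prod *
              ExteriorAlgebra.map (LinearMap.inr ℂ V W) (mono (Ω := ℂ) (B.map (fun e => e.1)))) =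
            mono (Ω := ℂ) ((0, e.1) :: (A.map fun e => ((e.1, 0) : V × W)) ++
              B.map fun e => ((0, e.1) : V × W)) := by
          rw [List.cons_append, ← hA, ← hB, ← mono_append]
          simp [mono]
        have h9 : mono (Ω := ℂ) ((A.map fun e => ((e.1, 0) : V × W)) ++ (0, e.1) ::
            B.map fun e => ((0, e.1) : V × W)) =
            ExteriorAlgebra.map (LinearMap.inl ℂ V W) (A.map (fun e => ι ℂ e.1)).prod *
              ExteriorAlgebra.map (LinearMap.inr ℂ V W)
                (mono (Ω := ℂ) ((e :: B).map (fun e => e.1))) := by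
          rw [mono_append, hA, ← hB]
          rfl
        rw [h6, h5, mul_smul_comm, h8, h7, h9, smul_smul]

/-- Products of divisor classes. -/
theorem divSpan_le {V : Type} [AddCommGroup V] [Module ℂ V] (F : V →ₗ[ℂ] V) (Q : ℕ) (k : ℕ)
    {W : Type} [AddCommGroup W] [Module ℂ W] (S : Set (ExteriorAlgebra ℂ (V × W)))
    (hS : ∀ u, IsTateClass F Q 1 u → ExteriorAlgebra.map (LinearMap.inl ℂ V W) u ∈ S)
    (t : ExteriorAlgebra ℂ V) (ht : t ∈ divSpan F (Q : ℂ) k) :
    ExteriorAlgebra.map (LinearMap.inl ℂ V W) t ∈ Algebra.adjoin ℂ S := by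
  have h : divSpan F (Q : ℂ) k ≤ (Subalgebra.toSubmodule (Algebra.adjoin ℂ S)).comap
      (ExteriorAlgebra.map (LinearMap.inl ℂ V W)).toLinearMap := by
    refine Submodule.span_le.2 ?_
    rintro _ ⟨Z, hZ, rfl⟩
    change ExteriorAlgebra.map (LinearMap.inl ℂ V W) (List.ofFn Z).prod ∈ Algebra.adjoin ℂ S
    rw [map_list_prod]
    refine Subalgebra.list_prod_mem _ ?_
    intro y hy
    obtain ⟨z, hz, rfl⟩ := List.mem_map.1 hy
    obtain ⟨l, rfl⟩ := (List.mem_ofFn' _ _).1 hz
    refine Algebra.subset_adjoin (hS _ ?_)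
    obtain ⟨h1, N, hN, h2⟩ := hZ l
    refine ⟨by rw [mul_one]; exact h1, N, hN, ?_⟩
    rw [pow_one]
    exact h2
  exact h ht

/-- **The theorem.** -/
theorem tateTimes_of_flips {κ : Type} [Fintype κ] (g : κ → ℕ) (E : IntermediateField ℚ ℂ)
    [FiniteDimensional ℚ E] (p : ℕ) [hp : Fact p.Prime] (a r : ℕ) (hr : ∀ i, r < g i)
    (P : κ → ℤ[X]) (hP : Flips g E (p ^ a) P) : TateTimes E p a r P := by
  classical
  obtain ⟨h, hm, hd, hPh, hirr, hpat, hss⟩ := hP
  intro s hs n T hT V _ _ F hV W _ _ Φ hW m x hx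
  have hq : p ^ a ≠ 0 := pow_ne_zero _ hp.out.ne_zero
  have hQs : ((p ^ (a * s) : ℕ) : ℂ) = (((p ^ a : ℕ) : ℂ)) ^ s := by
    push_cast
    rw [pow_mul]
  have hQ : (((p ^ a : ℕ) : ℂ)) ^ s ≠ 0 := pow_ne_zero _ (by exact_mod_cast hq)
  have := hV.fin
  have := hW.fin
  obtain ⟨u, hu, hsm⟩ := small_inSpan hT
  have hTm : T.Monic := hT.1.monic
  let X := {z : ℂ // ∃ i, aeval z (weil (p ^ a) (h i)) = 0}
  let val : X → ℂ := fun z => (z : ℂ) ^ s
  -- the eigenbases
  obtain ⟨b, ν, hν, hνr⟩ := exists_eigenbasis F hV.semisimple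
  obtain ⟨c, ω, hω, hωr⟩ := exists_eigenbasis Φ hW.semisimple
  rw [hV.charpoly] at hνr
  rw [hW.charpoly] at hωr
  have hνX : ∀ j, ∃ i, aeval (ν j) (weil (p ^ a) (h i)) = 0 := by
    intro j
    have h1 : ν j ∈ ((∏ i, P i ^ n i).map (Int.castRingHom ℂ)).roots := by
      rw [← hνr]
      exact Multiset.mem_map_of_mem _ (Finset.mem_univ_val j)
    have h2 := (mem_roots'.1 h1).2
    rw [Polynomial.map_prod, IsRoot.def, eval_prod, Finset.prod_eq_zero_iff] at h2
    obtain ⟨i, _, hi⟩ := h2
    rw [Polynomial.map_pow, eval_pow] at hi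
    have h3 := eq_zero_of_pow_eq_zero hi
    refine ⟨i, ?_⟩
    rw [hPh i, eval_map] at h3
    exact h3
  have hωT : ∀ j, aeval (ω j) T = 0 := by
    intro j
    have h1 : ω j ∈ (T.map (Int.castRingHom ℂ)).roots := by
      rw [← hωr]
      exact Multiset.mem_map_of_mem _ (Finset.mem_univ_val j)
    have h2 := (mem_roots'.1 h1).2
    rw [IsRoot.def, eval_map] at h2
    exact h2
  -- the spanning set
  let vec : (V × X) ⊕ (W × ℂ) → V × W := Sum.elim (fun e => ((e.1, 0) : V × W)) (fun e => (0, e.1))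
  let eig : (V × X) ⊕ (W × ℂ) → ℂ := Sum.elim (fun e => val e.2) (fun e => e.2)
  let D : Set ((V × X) ⊕ (W × ℂ)) := {e | (∀ e₁, e = Sum.inl e₁ → (F ^ s) e₁.1 = val e₁.2 • e₁.1) ∧
    ∀ e₂, e = Sum.inr e₂ → Φ e₂.1 = e₂.2 • e₂.1 ∧ aeval e₂.2 T = 0}
  have hspan : Submodule.span ℂ (vec '' D) = ⊤ := by
    rw [eq_top_iff]
    rintro ⟨v, w⟩ -
    have hv : ∀ v : V, ((v, 0) : V × W) ∈ Submodule.span ℂ (vec '' D) := by
      intro v
      have h1 : v ∈ Submodule.span ℂ (Set.range b) := by
        rw [b.span_eq]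
        exact Submodule.mem_top
      have h2 : Submodule.span ℂ (Set.range b) ≤
          (Submodule.span ℂ (vec '' D)).comap (LinearMap.inl ℂ V W) := by
        refine Submodule.span_le.2 ?_
        rintro _ ⟨j, rfl⟩
        refine Submodule.subset_span ⟨Sum.inl (b j, ⟨ν j, hνX j⟩), ⟨?_, ?_⟩, rfl⟩
        · rintro e₁ he
          obtain rfl := Sum.inl_injective he
          exact pow_eig F _ _ (hν j) s
        · rintro e₂ he
          exact absurd he Sum.inl_ne_inr
      exact h2 h1
    have hw : ∀ w : W, ((0, w) : V × W) ∈ Submodule.span ℂ (vec '' D) := by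
      intro w
      have h1 : w ∈ Submodule.span ℂ (Set.range c) := by
        rw [c.span_eq]
        exact Submodule.mem_top
      have h2 : Submodule.span ℂ (Set.range c) ≤
          (Submodule.span ℂ (vec '' D)).comap (LinearMap.inr ℂ V W) := by
        refine Submodule.span_le.2 ?_
        rintro _ ⟨j, rfl⟩
        refine Submodule.subset_span ⟨Sum.inr (c j, ω j), ⟨?_, ?_⟩, rfl⟩
        · rintro e₁ he
          exact absurd he Sum.inr_ne_inl
        · rintro e₂ he
          obtain rfl := Sum.inr_injective he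
          exact ⟨hω j, hωT j⟩
      exact h2 h1
    have h3 : ((v, w) : V × W) = (v, 0) + (0, w) := by simp
    rw [h3]
    exact Submodule.add_mem _ (hv v) (hw w)
  have heigD : ∀ e ∈ D, ((F ^ s).prodMap Φ) (vec e) = eig e • vec e := by
    rintro (e | e) ⟨h1, h2⟩
    · have h3 := h1 e rfl
      change (((F ^ s) e.1, Φ 0) : V × W) = val e.2 • (e.1, 0)
      rw [h3, map_zero, Prod.smul_mk, smul_zero]
    · have h3 := (h2 e rfl).1
      change (((F ^ s) 0, Φ e.1) : V × W) = e.2 • (0, e.1)
      rw [h3, map_zero, Prod.smul_mk, smul_zero]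
  obtain ⟨hxm, N, hN, hxN⟩ := hx
  have h1 := tate_span ((F ^ s).prodMap Φ) (vec '' D) hspan (by
    rintro _ ⟨e, he, rfl⟩
    exact ⟨eig e, heigD e he⟩) (2 * m) N _ x hxm hxN
  refine Submodule.span_le (p := Subalgebra.toSubmodule (Algebra.adjoin ℂ _)) |>.2 ?_ h1
  rintro t ⟨v, μ, hvS, hvF, hμ, rfl⟩
  rw [SetLike.mem_coe, Subalgebra.mem_toSubmodule]
  by_cases h0 : ∃ i, v i = 0
  · obtain ⟨i, hi⟩ := h0
    have h2 : mono (Ω := ℂ) (List.ofFn v) = 0 := by
      rw [mono]
      refine List.prod_eq_zero ?_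
      rw [List.mem_map]
      exact ⟨0, by rw [← hi]; exact (List.mem_ofFn' _ _).2 ⟨i, rfl⟩, map_zero _⟩
    rw [h2]
    exact zero_mem _
  push Not at h0
  choose e heD hev using hvS
  have hμe : ∀ i, μ i = eig (e i) := by
    intro i
    have h2 := hvF i
    rw [← hev i, heigD _ (heD i)] at h2
    exact (smul_left_injective ℂ (by rw [hev i]; exact h0 i) h2).symm
  obtain ⟨A, B, ε, h2, h3, h4, h5, h6⟩ := mono_sort (List.ofFn e)
  have h7 : (List.ofFn v) = (List.ofFn e).map vec := by
    rw [List.map_ofFn]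
    congr 1
    funext i
    exact (hev i).symm
  rw [h7]
  change mono (Ω := ℂ) ((List.ofFn e).map (Sum.elim (fun e => ((e.1, 0) : V × W))
    (fun e => (0, e.1)))) ∈ _
  rw [h6]
  refine Subalgebra.smul_mem _ ?_ _
  have hA : ∀ y ∈ A, (F ^ s) y.1 = val y.2 • y.1 := by
    intro y hy
    obtain ⟨i, hi⟩ := (List.mem_ofFn' _ _).1 (h3 y hy)
    exact (heD i).1 y hi
  have hB : ∀ y ∈ B, Φ y.1 = y.2 • y.1 ∧ aeval y.2 T = 0 := by
    intro y hy
    obtain ⟨i, hi⟩ := (List.mem_ofFn' _ _).1 (h4 y hy)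
    exact (heD i).2 y hi
  set ρ : ℂ := (B.map (fun e => e.2)).prod with hρ
  have hprod : (∏ i, μ i) = (A.map (fun e => val e.2)).prod * ρ := by
    rw [← h5 val, List.map_ofFn, List.prod_ofFn]
    exact Finset.prod_congr rfl fun i _ => hμe i
  -- the relation
  have hrel : ((A.map (fun e => val e.2)).prod * ρ) ^ N =
      (((((p ^ a : ℕ) : ℂ)) ^ s) ^ (m : ℤ)) ^ N := by
    rw [← hprod, hμ, hQs, zpow_natCast]
  -- the rank
  obtain ⟨χ, hχ, hχρ, hχc⟩ := exists_conj_list hTm (B.map fun e => e.2) (by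
    intro z hz
    obtain ⟨y, hy, rfl⟩ := List.mem_map.1 hz
    exact (hB y hy).2)
  have hrank : RankLEOver E r {ρ : ℂ | aeval ρ χ = 0} := by
    refine ⟨u, hu, ?_⟩
    intro ρ' hρ'
    obtain ⟨l', hl', rfl⟩ := hχc ρ' hρ'
    exact InSpan.list_prod hu l' fun z hz => hsm z (hl' z hz)
  have hex := exactPair_over h hm E hq r (fun i => by rw [hd i]; exact hr i) hirr hpat hss s hs χ
    hχ hrank ρ hχρ
  obtain ⟨k, hk1, hk2, hk3⟩ := list_exact (X := X) (F ^ s) val ((((p ^ a : ℕ) : ℂ)) ^ s) ρ hQ hex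
    A.length (m : ℤ) N hN A rfl hA hrel
  refine mul_mem ?_ ?_
  · refine divSpan_le (F ^ s) (p ^ (a * s)) k _ (fun u hu => Or.inl ⟨u, hu, rfl⟩) _ ?_
    rw [hQs]
    exact hk3
  · refine Algebra.subset_adjoin (Or.inr ⟨m - k, _, ⟨?_, N, hN, ?_⟩, rfl⟩)
    · have h8 := mono_mem_pow (Ω := ℂ) (B.map fun e => e.1)
      have h9 : (B.map fun e => e.1).length = 2 * (m - k) := by
        rw [List.length_map]
        rw [List.length_ofFn] at h2
        omega
      rwa [h9] at h8
    · have hkm : k ≤ m := by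
        rw [List.length_ofFn] at h2
        omega
      have h8 := map_mono (Φ ^ N) (B.map fun e => (e.2 ^ N, e.1)) (by
        intro y hy
        obtain ⟨z, hz, rfl⟩ := List.mem_map.1 hy
        exact pow_eig Φ _ _ (hB z hz).1 N)
      rw [List.map_map, List.map_map] at h8
      have h9 : (B.map ((Prod.fst : ℂ × W → ℂ) ∘ fun e => (e.2 ^ N, e.1))).prod = ρ ^ N := by
        rw [hρ]
        have h10 : ∀ B : List (W × ℂ), (B.map ((Prod.fst : ℂ × W → ℂ) ∘
            fun e => (e.2 ^ N, e.1))).prod = (B.map fun e => e.2).prod ^ N := by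
          intro B
          induction B with
          | nil => simp
          | cons y B ih =>
            rw [List.map_cons, List.prod_cons, ih, List.map_cons, List.prod_cons, mul_pow]
            rfl
        exact h10 B
      rw [h9] at h8
      have h10 : ρ ^ N = ((((p ^ (a * s) : ℕ) : ℂ)) ^ (m - k)) ^ N := by
        rw [hk2, mul_pow] at hrel
        have h11 : ((((p ^ a : ℕ) : ℂ)) ^ s) ^ (m : ℤ) = ((((p ^ a : ℕ) : ℂ)) ^ s) ^ k *
            ((((p ^ a : ℕ) : ℂ)) ^ s) ^ (m - k) := by
          rw [zpow_natCast, ← pow_add, Nat.add_sub_cancel' hkm]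
        rw [h11, mul_pow] at hrel
        rw [hQs]
        exact mul_left_cancel₀ (pow_ne_zero _ (pow_ne_zero _ hQ)) hrel
      rw [← h10]
      exact h8

end Pool.Agent.Hx88.NZ
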